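import Mathlib
import Pool.Agent.MP_1e96f1_co.Count

/-!
# Sums of a top-level class function

If a function `b` on sets has zero sum over the `κ`-supersets of every `(κ-1)`-set, then its sum over
the `κ`-sets containing `R` and disjoint from `S` vanishes as soon as `|R| + |S| < κ`.
-/

namespace Pool.Agent.BW

open Finset Pool.Agent.MP_1e96f1_co

variable {Ω : Type*} [Fintype Ω] [DecidableEq Ω]

/-- sum of `b` over the `κ`-sets containing `R` and disjoint from `S` -/
def H (b : Finset Ω → ℤ) (κ : ℕ) (R S : Finset Ω) : ℤ :=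
  ∑ C ∈ (Sᶜ.powersetCard κ).filter (fun C => R ⊆ C), b C

lemma supers_eq (R : Finset Ω) :
    ((univ : Finset Ω).powersetCard (R.card + 1)).filter (fun C => R ⊆ C) =
      Rᶜ.image (fun y => insert y R) := by
  ext C
  simp only [Finset.mem_filter, Finset.mem_powersetCard, Finset.subset_univ, true_and,
    Finset.mem_image, Finset.mem_compl]
  constructor
  · rintro ⟨h1, h2⟩
    have h3 : (C \ R).card = 1 := by
      rw [Finset.card_sdiff_of_subset h2, h1]; omega
    obtain ⟨y, hy⟩ := Finset.card_eq_one.mp h3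
    have hyC : y ∈ C \ R := by rw [hy]; exact Finset.mem_singleton_self y
    rw [Finset.mem_sdiff] at hyC
    refine ⟨y, hyC.2, ?_⟩
    apply Finset.eq_of_subset_of_card_le
    · exact Finset.insert_subset hyC.1 h2
    · rw [Finset.card_insert_of_notMem hyC.2, h1]
  · rintro ⟨y, hy, rfl⟩
    exact ⟨Finset.card_insert_of_notMem hy, Finset.subset_insert _ _⟩

lemma sum_insert_eq (b : Finset Ω → ℤ) (R : Finset Ω) :
    H b (R.card + 1) R ∅ = ∑ y ∈ Rᶜ, b (insert y R) := by
  unfold H
  rw [Finset.compl_empty, supers_eq, Finset.sum_image]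
  intro y hy z hz hyz
  rw [Finset.mem_coe, Finset.mem_compl] at hy hz
  have hyz' : insert y R = insert z R := hyz
  have h1 : y ∈ insert z R := by rw [← hyz']; exact Finset.mem_insert_self y R
  rw [Finset.mem_insert] at h1
  exact h1.resolve_right hy

lemma sum_H_insert (b : Finset Ω → ℤ) (κ : ℕ) (R : Finset Ω) :
    ∑ y ∈ Rᶜ, H b κ (insert y R) ∅ = ((κ : ℤ) - R.card) * H b κ R ∅ := by
  unfold H
  rw [Finset.compl_empty]
  simp only [Finset.sum_filter]
  rw [Finset.sum_comm, Finset.mul_sum]
  refine Finset.sum_congr rfl fun C hC => ?_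
  rw [Finset.mem_powersetCard] at hC
  by_cases h : R ⊆ C
  · rw [if_pos h]
    have h1 : ∀ y ∈ Rᶜ, (if insert y R ⊆ C then b C else 0) = if y ∈ C then b C else 0 := by
      intro y _
      have : insert y R ⊆ C ↔ y ∈ C := by
        rw [Finset.insert_subset_iff]; exact ⟨fun h => h.1, fun h' => ⟨h', h⟩⟩
      simp only [this]
    rw [Finset.sum_congr rfl h1, ← Finset.sum_filter, Finset.sum_const]
    have h2 : Rᶜ.filter (fun y => y ∈ C) = C \ R := by
      ext y; simp only [Finset.mem_filter, Finset.mem_compl, Finset.mem_sdiff]; tauto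
    rw [h2, Finset.card_sdiff_of_subset h, hC.2, nsmul_eq_mul, Nat.cast_sub]
    rw [← hC.2]; exact Finset.card_le_card h
  · rw [if_neg h, mul_zero]
    refine Finset.sum_eq_zero fun y _ => ?_
    rw [if_neg]
    intro h'
    exact h ((Finset.subset_insert _ _).trans h')

lemma H_base {b : Finset Ω → ℤ} {κ : ℕ}
    (hb : ∀ X : Finset Ω, X.card + 1 = κ → ∑ y ∈ Xᶜ, b (insert y X) = 0) :
    ∀ n : ℕ, ∀ R : Finset Ω, R.card + n + 1 = κ → H b κ R ∅ = 0 := by
  intro n
  induction n with
  | zero =>
    intro R hR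
    have h := sum_insert_eq b R
    rw [show R.card + 1 = κ by omega] at h
    rw [h]
    exact hb R (by omega)
  | succ n ih =>
    intro R hR
    have h := sum_H_insert b κ R
    have h0 : ∑ y ∈ Rᶜ, H b κ (insert y R) ∅ = 0 := by
      refine Finset.sum_eq_zero fun y hy => ?_
      rw [Finset.mem_compl] at hy
      apply ih
      rw [Finset.card_insert_of_notMem hy]
      omega
    rw [h0] at h
    have h1 : ((κ : ℤ) - R.card) ≠ 0 := by
      have : (κ : ℤ) = R.card + (n + 1) + 1 := by exact_mod_cast hR.symm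
      rw [this]; omega
    rcases mul_eq_zero.mp h.symm with h2 | h2
    · exact absurd h2 h1
    · exact h2

lemma H_split (b : Finset Ω → ℤ) (κ : ℕ) (R S : Finset Ω) (s : Ω) (hs : s ∉ S) :
    H b κ R S = H b κ (insert s R) S + H b κ R (insert s S) := by
  unfold H
  rw [← Finset.sum_filter_add_sum_filter_not ((Sᶜ.powersetCard κ).filter (fun C => R ⊆ C))
    (fun C => s ∈ C)]
  congr 1
  · refine Finset.sum_congr ?_ fun _ _ => rfl
    ext C
    simp only [Finset.mem_filter, Finset.insert_subset_iff]
    tauto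
  · refine Finset.sum_congr ?_ fun _ _ => rfl
    ext C
    simp only [Finset.mem_filter, Finset.mem_powersetCard]
    constructor
    · rintro ⟨⟨⟨h1, h2⟩, h3⟩, h4⟩
      refine ⟨⟨?_, h2⟩, h3⟩
      intro y hy
      rw [Finset.mem_compl, Finset.mem_insert, not_or]
      refine ⟨?_, ?_⟩
      · rintro rfl; exact h4 hy
      · exact Finset.mem_compl.mp (h1 hy)
    · rintro ⟨⟨h1, h2⟩, h3⟩
      refine ⟨⟨⟨?_, h2⟩, h3⟩, ?_⟩
      · intro y hy
        have := h1 hy
        rw [Finset.mem_compl, Finset.mem_insert, not_or] at this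
        exact Finset.mem_compl.mpr this.2
      · intro h4
        have := h1 h4
        rw [Finset.mem_compl, Finset.mem_insert, not_or] at this
        exact this.1 rfl

theorem H_zero {b : Finset Ω → ℤ} {κ : ℕ}
    (hb : ∀ X : Finset Ω, X.card + 1 = κ → ∑ y ∈ Xᶜ, b (insert y X) = 0) (S : Finset Ω) :
    ∀ R : Finset Ω, Disjoint R S → R.card + S.card < κ → H b κ R S = 0 := by
  induction S using Finset.induction_on with
  | empty =>
    intro R _ h
    rw [Finset.card_empty] at h
    exact H_base hb (κ - R.card - 1) R (by omega)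
  | insert s S hs ih =>
    intro R hRS h
    rw [Finset.card_insert_of_notMem hs] at h
    rw [Finset.disjoint_insert_right] at hRS
    have h1 := H_split b κ R S s hs
    have h2 := ih R hRS.2 (by omega)
    have h3 : H b κ (insert s R) S = 0 := by
      apply ih
      · rw [Finset.disjoint_insert_left]; exact ⟨hs, hRS.2⟩
      · rw [Finset.card_insert_of_notMem hRS.1]; omega
    rw [h2, h3, zero_add] at h1
    exact h1.symm

/-- The number of `κ`-sets containing `R` and disjoint from `S`. -/
lemma card_H (κ : ℕ) (R S : Finset Ω) (hRS : Disjoint R S) (hR : R.card ≤ κ) :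
    ((Sᶜ.powersetCard κ).filter (fun C => R ⊆ C)).card =
      (Fintype.card Ω - S.card - R.card).choose (κ - R.card) := by
  rw [card_supersets _ κ hR, Finset.card_compl]
  intro y hy
  rw [Finset.mem_compl]
  exact Finset.disjoint_left.mp hRS hy

end Pool.Agent.BW
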