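import Mathlib
import Pool.Agent.BW.Top
import Pool.Agent.MP_1e96f1_co.Defs

/-!
# The class function of a `β(2)` design with `k = d + 4`
-/

namespace Pool.Agent.BW

open Finset Pool.Agent.MP_1e96f1_co

variable {Ω : Type*} [Fintype Ω] [DecidableEq Ω]

open Classical in
/-- `w (w - 1)` for blocks, `-(w - 1)` for the sets meeting a block in `d + 3` points, `2` for the
others -/
noncomputable def cls (Bs : Finset (Finset Ω)) (d : ℕ) (w : ℤ) (C : Finset Ω) : ℤ :=
  if C ∈ Bs then w * (w - 1) else if ∃ B ∈ Bs, (C ∩ B).card = d + 3 then -(w - 1) else 2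

omit [Fintype Ω] in
lemma cls_mod (Bs : Finset (Finset Ω)) (d : ℕ) (w : ℤ) (C : Finset Ω) :
    w + 1 ∣ 2 - cls Bs d w C := by
  unfold cls
  split_ifs
  · exact ⟨2 - w, by ring⟩
  · exact ⟨1, by ring⟩
  · simp

/-- The sum of the class function over the `(d+4)`-sets containing a `(d+3)`-set is zero. -/
theorem cls_sum {Bs : Finset (Finset Ω)} {v d : ℕ} (hD : IsDesign Bs v (d + 4) d)
    (hB : IsBeta Bs v d 2) {w : ℕ} (hw : v = d + 4 + w) (hw1 : 1 ≤ w) (X : Finset Ω)
    (hX : X.card = d + 3) :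
    ∑ y ∈ Xᶜ, cls Bs d w (insert y X) = 0 := by
  obtain ⟨B, ⟨hBs, hXB⟩, huniq⟩ := hB.2.2 X (by omega)
  have huniq' : ∀ C ∈ Bs, d + 2 ≤ (X ∩ C).card → C = B := fun C hC h => huniq C ⟨hC, h⟩
  have hBc := hD.card_block B hBs
  have hXle : (X ∩ B).card ≤ d + 3 := by
    rw [← hX]; exact Finset.card_le_card Finset.inter_subset_left
  have hXc : Xᶜ.card = w + 1 := by
    rw [Finset.card_compl, hD.card_points, hX]; omega
  -- a block containing `X` is `B`
  have hcont : ∀ C ∈ Bs, X ⊆ C → C = B := by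
    intro C hC h
    apply huniq' C hC
    rw [Finset.inter_eq_left.mpr h, hX]; omega
  have hins : ∀ y ∈ Xᶜ, (insert y X).card = d + 4 := by
    intro y hy
    rw [Finset.card_insert_of_notMem (Finset.mem_compl.mp hy), hX]
  -- number of points of `B` outside `X`
  have hin : (Xᶜ.filter (fun y => y ∈ B)).card = d + 4 - (X ∩ B).card := by
    have h1 : Xᶜ.filter (fun y => y ∈ B) = B \ X := by
      ext y; simp only [Finset.mem_filter, Finset.mem_compl, Finset.mem_sdiff]; tauto
    rw [h1]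
    have h2 := Finset.card_sdiff_add_card_inter B X
    rw [Finset.inter_comm B X, hBc] at h2
    omega
  have hout : (Xᶜ.filter (fun y => y ∉ B)).card = w + 1 - (d + 4 - (X ∩ B).card) := by
    have h1 := Finset.card_filter_add_card_filter_not (s := Xᶜ) (fun y => y ∈ B)
    rw [hin, hXc] at h1
    omega
  rw [← Finset.sum_filter_add_sum_filter_not Xᶜ (fun y => y ∈ B)]
  rcases Nat.lt_or_ge (X ∩ B).card (d + 3) with hlt | hge
  · -- `X` is in no block
    have hXB2 : (X ∩ B).card = d + 2 := by omega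
    have hno : ∀ y ∈ Xᶜ, insert y X ∉ Bs := by
      intro y hy hmem
      have h1 := hcont _ hmem (Finset.subset_insert _ _)
      have h2 : X ∩ B = X := by
        rw [← h1]; exact Finset.inter_eq_left.mpr (Finset.subset_insert _ _)
      rw [h2, hX] at hXB2
      omega
    have e1 : ∀ y ∈ Xᶜ.filter (fun y => y ∈ B), cls Bs d w (insert y X) = -((w : ℤ) - 1) := by
      intro y hy
      rw [Finset.mem_filter] at hy
      unfold cls
      rw [if_neg (hno y hy.1), if_pos]
      refine ⟨B, hBs, ?_⟩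
      rw [Finset.insert_inter_of_mem hy.2, Finset.card_insert_of_notMem, hXB2]
      intro h
      exact (Finset.mem_compl.mp hy.1) (Finset.mem_inter.mp h).1
    have e2 : ∀ y ∈ Xᶜ.filter (fun y => y ∉ B), cls Bs d w (insert y X) = 2 := by
      intro y hy
      rw [Finset.mem_filter] at hy
      unfold cls
      rw [if_neg (hno y hy.1), if_neg]
      rintro ⟨C, hC, hCc⟩
      have h1 : (insert y X ∩ C).card ≤ (X ∩ C).card + 1 := by
        by_cases hyC : y ∈ C
        · rw [Finset.insert_inter_of_mem hyC]; exact Finset.card_insert_le _ _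
        · rw [Finset.insert_inter_of_notMem hyC]; omega
      have h2 := huniq' C hC (by omega)
      rw [h2, Finset.insert_inter_of_notMem hy.2] at hCc
      omega
    rw [Finset.sum_congr rfl e1, Finset.sum_congr rfl e2, Finset.sum_const, Finset.sum_const, hin,
      hout, hXB2]
    have h3 : d + 4 - (d + 2) = 2 := by omega
    rw [h3, nsmul_eq_mul, nsmul_eq_mul, Nat.cast_sub (by omega)]
    push_cast
    ring
  · -- `X ⊆ B`
    have hXB3 : (X ∩ B).card = d + 3 := by omega
    have hsub : X ⊆ B := by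
      rw [← Finset.inter_eq_left]
      exact Finset.eq_of_subset_of_card_le Finset.inter_subset_left (by omega)
    have e1 : ∀ y ∈ Xᶜ.filter (fun y => y ∈ B), cls Bs d w (insert y X) = (w : ℤ) * (w - 1) := by
      intro y hy
      rw [Finset.mem_filter] at hy
      have h1 : insert y X = B := by
        apply Finset.eq_of_subset_of_card_le (Finset.insert_subset hy.2 hsub)
        rw [hins y hy.1, hBc]
      unfold cls
      rw [if_pos (h1 ▸ hBs)]
    have e2 : ∀ y ∈ Xᶜ.filter (fun y => y ∉ B), cls Bs d w (insert y X) = -((w : ℤ) - 1) := by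
      intro y hy
      rw [Finset.mem_filter] at hy
      unfold cls
      rw [if_neg, if_pos]
      · exact ⟨B, hBs, by rw [Finset.insert_inter_of_notMem hy.2, hXB3]⟩
      · intro hmem
        have h1 := hcont _ hmem (Finset.subset_insert _ _)
        apply hy.2
        rw [← h1]; exact Finset.mem_insert_self _ _
    rw [Finset.sum_congr rfl e1, Finset.sum_congr rfl e2, Finset.sum_const, Finset.sum_const, hin,
      hout, hXB3]
    have h3 : d + 4 - (d + 3) = 1 := by omega
    rw [h3, nsmul_eq_mul, nsmul_eq_mul, Nat.cast_sub (by omega)]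
    push_cast
    ring

/-- `w + 1` divides `2 * C(w + 1, j)` for `1 ≤ j ≤ k`. -/
theorem dvd_choose {Bs : Finset (Finset Ω)} {v d : ℕ} (hD : IsDesign Bs v (d + 4) d)
    (hB : IsBeta Bs v d 2) {w : ℕ} (hw : v = d + 4 + w) (hw1 : 1 ≤ w) {j : ℕ} (hj : 1 ≤ j)
    (hj' : j ≤ d + 4) : w + 1 ∣ 2 * (w + 1).choose j := by
  have hb : ∀ X : Finset Ω, X.card + 1 = d + 4 → ∑ y ∈ Xᶜ, cls Bs d w (insert y X) = 0 :=
    fun X hX => cls_sum hD hB hw hw1 X (by omega)
  obtain ⟨X, hX⟩ : ∃ X : Finset Ω, X.card = d + 3 := by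
    obtain ⟨X, -, hX⟩ := Finset.exists_subset_card_eq (s := (univ : Finset Ω)) (n := d + 3)
      (by rw [Finset.card_univ, hD.card_points]; omega)
    exact ⟨X, hX⟩
  obtain ⟨R, hRX, hR⟩ := Finset.exists_subset_card_eq (s := X) (n := d + 4 - j) (by omega)
  have hdis : Disjoint R (X \ R) := Finset.disjoint_sdiff
  have hS : (X \ R).card = j - 1 := by
    rw [Finset.card_sdiff_of_subset hRX, hX, hR]; omega
  have h0 := H_zero hb (X \ R) R hdis (by rw [hR, hS]; omega)
  have hc := card_H (d + 4) R (X \ R) hdis (by omega)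
  rw [hD.card_points, hR, hS] at hc
  have e1 : v - (j - 1) - (d + 4 - j) = w + 1 := by omega
  have e2 : d + 4 - (d + 4 - j) = j := by omega
  rw [e1, e2] at hc
  have h1 : ((w : ℤ) + 1) ∣ ∑ C ∈ ((X \ R)ᶜ.powersetCard (d + 4)).filter (fun C => R ⊆ C),
      (2 - cls Bs d w C) := Finset.dvd_sum fun C _ => cls_mod Bs d w C
  rw [Finset.sum_sub_distrib] at h1
  unfold H at h0
  rw [h0, sub_zero, Finset.sum_const, hc, nsmul_eq_mul] at h1
  have h2 : (((w + 1 : ℕ) : ℤ)) ∣ ((2 * (w + 1).choose j : ℕ) : ℤ) := by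
    push_cast
    rw [mul_comm]
    exact h1
  exact_mod_cast h2

/-- no odd prime `p ≤ k` divides `w + 1` -/
theorem no_prime {Bs : Finset (Finset Ω)} {v d : ℕ} (hD : IsDesign Bs v (d + 4) d)
    (hB : IsBeta Bs v d 2) {w : ℕ} (hw : v = d + 4 + w) (hw1 : 1 ≤ w) {p : ℕ} (hp : p.Prime)
    (hp2 : p ≠ 2) (hpk : p ≤ d + 4) : ¬ p ∣ w + 1 := by
  intro hdvd
  obtain ⟨m, hm⟩ := dvd_choose hD hB hw hw1 hp.one_lt.le hpk
  have hp1 := hp.one_lt
  have hpw : p ≤ w + 1 := Nat.le_of_dvd (by omega) hdvd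
  have h1 := Nat.add_one_mul_choose_eq w (p - 1)
  rw [show p - 1 + 1 = p by omega] at h1
  have h2 : (w + 1) * (2 * w.choose (p - 1)) = (w + 1) * (m * p) := by
    calc (w + 1) * (2 * w.choose (p - 1)) = 2 * ((w + 1) * w.choose (p - 1)) := by ring
      _ = 2 * ((w + 1).choose p * p) := by rw [h1]
      _ = (2 * (w + 1).choose p) * p := by ring
      _ = (w + 1) * (m * p) := by rw [hm]; ring
  have h3 := Nat.eq_of_mul_eq_mul_left (by omega) h2
  have h4 : p ∣ 2 * w.choose (p - 1) := ⟨m, by rw [h3]; ring⟩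
  rcases hp.dvd_mul.mp h4 with h5 | h5
  · have := Nat.le_of_dvd (by norm_num) h5
    have := hp.two_le
    omega
  · have h6 : p ∣ w.descFactorial (p - 1) := by
      rw [Nat.descFactorial_eq_factorial_mul_choose]
      exact h5.mul_left _
    rw [Nat.descFactorial_eq_prod_range, hp.prime.dvd_finsetProd_iff] at h6
    obtain ⟨i, hi, hdi⟩ := h6
    rw [Finset.mem_range] at hi
    have h7 : p ∣ (w + 1) - (w - i) := Nat.dvd_sub hdvd hdi
    have h8 : (w + 1) - (w - i) = i + 1 := by omega
    rw [h8] at h7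
    have := Nat.le_of_dvd (by omega) h7
    omega

end Pool.Agent.BW
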