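import Mathlib
import Pool.Agent.MP_1e96f1_co.Defs

/-!
# Holes of a `β(2)` design with `k = d + 4`
-/

namespace Pool.Agent.BW

open Finset Pool.Agent.MP_1e96f1_co

variable {Ω : Type*} [Fintype Ω] [DecidableEq Ω]

omit [Fintype Ω] in
/-- Double counting of pairs. -/
lemma pairs_div (W : Finset Ω) (𝒞 : Finset (Finset Ω)) (h4 : ∀ C ∈ 𝒞, (C ∩ W).card = 4)
    (hu : ∀ y ∈ W, ∀ z ∈ W, y ≠ z → (𝒞.filter (fun C => y ∈ C ∧ z ∈ C)).card = 1) :
    12 ∣ W.card * (W.card - 1) := by
  have h1 : ∑ p ∈ W.offDiag, (𝒞.filter (fun C => p.1 ∈ C ∧ p.2 ∈ C)).card = W.offDiag.card := by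
    rw [Finset.card_eq_sum_ones]
    refine Finset.sum_congr rfl fun p hp => ?_
    rw [Finset.mem_offDiag] at hp
    exact hu p.1 hp.1 p.2 hp.2.1 hp.2.2
  have h2 : ∑ p ∈ W.offDiag, (𝒞.filter (fun C => p.1 ∈ C ∧ p.2 ∈ C)).card =
      ∑ C ∈ 𝒞, (W.offDiag.filter (fun p => p.1 ∈ C ∧ p.2 ∈ C)).card := by
    simp only [Finset.card_filter]
    exact Finset.sum_comm
  have h3 : ∀ C ∈ 𝒞, (W.offDiag.filter (fun p => p.1 ∈ C ∧ p.2 ∈ C)).card = 12 := by
    intro C hC
    have : W.offDiag.filter (fun p => p.1 ∈ C ∧ p.2 ∈ C) = (C ∩ W).offDiag := by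
      ext p
      simp only [Finset.mem_filter, Finset.mem_offDiag, Finset.mem_inter]
      tauto
    rw [this, Finset.offDiag_card, h4 C hC]
  rw [h2, Finset.sum_congr rfl h3, Finset.sum_const, smul_eq_mul, Finset.offDiag_card] at h1
  refine ⟨𝒞.card, ?_⟩
  rw [Nat.mul_sub_one, ← h1, mul_comm]

omit [Fintype Ω] in
/-- The blocks meeting a `(d+1)`-set `P` in `d` points give a `2-(|W|,4,1)` design on `W`. -/
theorem hole {Bs : Finset (Finset Ω)} {v d : ℕ} (hB : IsBeta Bs v d 2) {P W : Finset Ω}
    (hP : P.card = d + 1) (hPW : Disjoint P W)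
    (h4 : ∀ C ∈ Bs, (C ∩ P).card = d → (C ∩ W).card = 4)
    (hno : ∀ C ∈ Bs, P ⊆ C → Disjoint C W) : 12 ∣ W.card * (W.card - 1) := by
  refine pairs_div W (Bs.filter (fun C => (C ∩ P).card = d)) ?_ ?_
  · intro C hC
    rw [Finset.mem_filter] at hC
    exact h4 C hC.1 hC.2
  · intro y hy z hz hyz
    have hyP : y ∉ P := Finset.disjoint_right.mp hPW hy
    have hzP : z ∉ P := Finset.disjoint_right.mp hPW hz
    have hyz' : y ∉ insert z P := by
      rw [Finset.mem_insert, not_or]; exact ⟨hyz, hyP⟩
    obtain ⟨B, ⟨hBs, hXB⟩, huniq⟩ := hB.2.2 (insert y (insert z P)) (by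
      rw [Finset.card_insert_of_notMem hyz', Finset.card_insert_of_notMem hzP, hP]; omega)
    -- contributions of the two new points
    have hins : ∀ (a : Ω) (Q C : Finset Ω), (insert a Q ∩ C).card ≤ (Q ∩ C).card + 1 ∧
        (a ∉ C → (insert a Q ∩ C).card = (Q ∩ C).card) := by
      intro a Q C
      constructor
      · by_cases h : a ∈ C
        · rw [Finset.insert_inter_of_mem h]; exact Finset.card_insert_le _ _
        · rw [Finset.insert_inter_of_notMem h]; omega
      · intro h
        rw [Finset.insert_inter_of_notMem h]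
    have i1 := hins y (insert z P) B
    have i2 := hins z P B
    have hPB : ¬ P ⊆ B := by
      intro hsub
      have hd := hno B hBs hsub
      have h1 : y ∉ B := Finset.disjoint_right.mp hd hy
      have h2 : z ∉ B := Finset.disjoint_right.mp hd hz
      have h3 := i1.2 h1
      have h4 := i2.2 h2
      have h5 : (P ∩ B).card ≤ P.card := Finset.card_le_card Finset.inter_subset_left
      omega
    have hPB' : (P ∩ B).card ≤ d := by
      have h5 : (P ∩ B).card < P.card := by
        apply Finset.card_lt_card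
        refine ⟨Finset.inter_subset_left, fun h => hPB fun a ha => ?_⟩
        exact (Finset.mem_inter.mp (h ha)).2
      omega
    have hPBd : (P ∩ B).card = d := by
      have := i1.1
      have := i2.1
      omega
    have hyB : y ∈ B := by
      by_contra h
      have := i1.2 h
      have := i2.1
      omega
    have hzB : z ∈ B := by
      by_contra h
      have := i2.2 h
      have := i1.1
      omega
    rw [Finset.card_eq_one]
    refine ⟨B, ?_⟩
    ext C
    simp only [Finset.mem_filter, Finset.mem_singleton]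
    constructor
    · rintro ⟨⟨hC, hCP⟩, hyC, hzC⟩
      refine huniq C ⟨hC, ?_⟩
      rw [Finset.insert_inter_of_mem hyC, Finset.card_insert_of_notMem, Finset.insert_inter_of_mem hzC,
        Finset.card_insert_of_notMem, Finset.inter_comm P C, hCP]
      · intro h; exact hzP (Finset.mem_inter.mp h).1
      · intro h; exact hyz' (Finset.mem_inter.mp h).1
    · rintro rfl
      exact ⟨⟨hBs, by rw [Finset.inter_comm]; exact hPBd⟩, hyB, hzB⟩

/-- the `2-(w,4,1)` design on the complement of a block -/
theorem twelve_block {Bs : Finset (Finset Ω)} {v d : ℕ} (hD : IsDesign Bs v (d + 4) d)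
    (hB : IsBeta Bs v d 2) {w : ℕ} (hw : v = d + 4 + w) : 12 ∣ w * (w - 1) := by
  obtain ⟨B, hBs⟩ : Bs.Nonempty := by
    rw [← Finset.card_pos]; have := hD.two_le; omega
  have hBc := hD.card_block B hBs
  obtain ⟨P, hPB, hP⟩ := Finset.exists_subset_card_eq (s := B) (n := d + 1) (by omega)
  have hW : Bᶜ.card = w := by rw [Finset.card_compl, hD.card_points, hBc]; omega
  have hdis : Disjoint P Bᶜ := by
    rw [Finset.disjoint_left]
    intro a ha hac
    exact (Finset.mem_compl.mp hac) (hPB ha)
  have h := hole hB (P := P) (W := Bᶜ) hP hdis ?_ ?_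
  · rwa [hW] at h
  · intro C hC hCP
    have hne : C ≠ B := by
      rintro rfl
      rw [Finset.inter_eq_right.mpr hPB, hP] at hCP
      omega
    have h1 := hD.inter_le C hC B hBs hne
    have h2 : (C ∩ P).card ≤ (C ∩ B).card :=
      Finset.card_le_card (Finset.inter_subset_inter_left hPB)
    have h3 := Finset.card_sdiff_add_card_inter C B
    rw [hD.card_block C hC] at h3
    have h4 : C ∩ Bᶜ = C \ B := by
      ext a; simp only [Finset.mem_inter, Finset.mem_compl, Finset.mem_sdiff]
    rw [h4]
    omega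
  · intro C hC hPC
    have : C = B := by
      by_contra hne
      have h1 := hD.inter_le C hC B hBs hne
      have h2 : P ⊆ C ∩ B := Finset.subset_inter hPC hPB
      have h3 := Finset.card_le_card h2
      omega
    rw [this]
    exact disjoint_compl_right

/-- the `2-(w+3,4,1)` design on the complement of a `(d+1)`-set that lies in no block -/
theorem twelve_hole {Bs : Finset (Finset Ω)} {v d : ℕ} (hD : IsDesign Bs v (d + 4) d)
    (hB : IsBeta Bs v d 2) {w : ℕ} (hw : v = d + 4 + w) {P : Finset Ω} (hP : P.card = d + 1)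
    (hno : ∀ C ∈ Bs, ¬ P ⊆ C) : 12 ∣ (w + 3) * (w + 2) := by
  have hW : Pᶜ.card = w + 3 := by rw [Finset.card_compl, hD.card_points, hP]; omega
  have h := hole hB (P := P) (W := Pᶜ) hP disjoint_compl_right ?_ ?_
  · rwa [hW] at h
  · intro C hC hCP
    have h3 := Finset.card_sdiff_add_card_inter C P
    rw [hD.card_block C hC] at h3
    have h4 : C ∩ Pᶜ = C \ P := by
      ext a; simp only [Finset.mem_inter, Finset.mem_compl, Finset.mem_sdiff]
    rw [h4]
    omega
  · intro C hC hPC
    exact absurd hPC (hno C hC)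

end Pool.Agent.BW
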