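import Mathlib
import Pool.Agent.MP_1e96f1_co.Count
import Pool.Agent.MP_1e96f1_co.Defs

/-!
# `S(d+1, d+4, 4d+8)` exists only for `d = 4` (divisibility conditions)
-/

namespace Pool.Agent.BW

open Finset Pool.Agent.MP_1e96f1_co

variable {Ω : Type*} [Fintype Ω] [DecidableEq Ω]

/-- divisibility conditions of a Steiner system -/
theorem lam_dvd {Bs : Finset (Finset Ω)} {v k d : ℕ} (hD : IsDesign Bs v k d)
    (hB : IsBeta Bs v d 1) {s : ℕ} (hs : s ≤ d + 1) :
    (k - s).choose (d + 1 - s) ∣ (v - s).choose (d + 1 - s) := by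
  have hv : d + 1 ≤ v := by have := hB.2.1; omega
  obtain ⟨R, -, hR⟩ := Finset.exists_subset_card_eq (s := (univ : Finset Ω)) (n := s)
    (by rw [Finset.card_univ, hD.card_points]; omega)
  set 𝒬 := ((univ : Finset Ω).powersetCard (d + 1)).filter (fun Q => R ⊆ Q) with h𝒬
  have h1 : ∀ Q ∈ 𝒬, (Bs.filter (fun C => Q ⊆ C)).card = 1 := by
    intro Q hQ
    rw [h𝒬, Finset.mem_filter, Finset.mem_powersetCard] at hQ
    obtain ⟨B, ⟨hBs, hQB⟩, huniq⟩ := hB.2.2 Q (by omega)
    have hiff : ∀ C : Finset Ω, Q ⊆ C ↔ d + 1 ≤ (Q ∩ C).card := by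
      intro C
      constructor
      · intro h; rw [Finset.inter_eq_left.mpr h, hQ.1.2]
      · intro h
        rw [← Finset.inter_eq_left]
        exact Finset.eq_of_subset_of_card_le Finset.inter_subset_left (by omega)
    rw [Finset.card_eq_one]
    refine ⟨B, ?_⟩
    ext C
    simp only [Finset.mem_filter, Finset.mem_singleton]
    constructor
    · rintro ⟨hC, h⟩; exact huniq C ⟨hC, (hiff C).mp h⟩
    · rintro rfl; exact ⟨hBs, (hiff C).mpr hQB⟩
  have h2 : ∑ Q ∈ 𝒬, (Bs.filter (fun C => Q ⊆ C)).card = 𝒬.card := by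
    rw [Finset.card_eq_sum_ones]; exact Finset.sum_congr rfl h1
  have h3 : ∑ Q ∈ 𝒬, (Bs.filter (fun C => Q ⊆ C)).card =
      ∑ C ∈ Bs, (𝒬.filter (fun Q => Q ⊆ C)).card := by
    simp only [Finset.card_filter]; exact Finset.sum_comm
  have h4 : ∀ C ∈ Bs, (𝒬.filter (fun Q => Q ⊆ C)).card =
      if R ⊆ C then (k - s).choose (d + 1 - s) else 0 := by
    intro C hC
    by_cases h : R ⊆ C
    · rw [if_pos h]
      have h5 : 𝒬.filter (fun Q => Q ⊆ C) = (C.powersetCard (d + 1)).filter (fun Q => R ⊆ Q) := by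
        ext Q
        simp only [h𝒬, Finset.mem_filter, Finset.mem_powersetCard, Finset.subset_univ, true_and]
        tauto
      rw [h5, card_supersets h _ (by omega), hD.card_block C hC, hR]
    · rw [if_neg h, Finset.card_eq_zero, Finset.filter_eq_empty_iff]
      intro Q hQ hQC
      rw [h𝒬, Finset.mem_filter] at hQ
      exact h (hQ.2.trans hQC)
  have h5 : 𝒬.card = (v - s).choose (d + 1 - s) := by
    rw [h𝒬, card_supersets (Finset.subset_univ R) _ (by omega), Finset.card_univ, hD.card_points, hR]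
  rw [h3, Finset.sum_congr rfl h4, ← Finset.sum_filter, Finset.sum_const, smul_eq_mul, h5] at h2
  exact ⟨_, by rw [← h2, mul_comm]⟩

/-- the divisibility conditions of `S(d+1, d+4, 4d+8)` force `d ∈ {0, 4}` -/
theorem d_eq_four {d : ℕ} (hd : 0 < d)
    (h : ∀ a, 3 ≤ a → a ≤ d + 4 → a.choose (a - 3) ∣ (3 * d + 4 + a).choose (a - 3)) : d = 4 := by
  -- 4 ∣ d
  have h4 : 4 ∣ 3 * d + 8 := by
    have := h 4 (by omega) (by omega)
    simpa using this
  -- no prime p ≥ 5
  have hp : ∀ p, p.Prime → 5 ≤ p → ¬ p ∣ d + 2 := by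
    intro p hp hp5 hdvd
    have hple := Nat.le_of_dvd (by omega) hdvd
    have h1 := h p (by omega) (by omega)
    have h2 : p ∣ p.choose (p - 3) := hp.dvd_choose_self (by omega) (by omega)
    have h3 : p ∣ (3 * d + 4 + p).descFactorial (p - 3) := by
      rw [Nat.descFactorial_eq_factorial_mul_choose]
      exact (h2.trans h1).mul_left _
    rw [Nat.descFactorial_eq_prod_range, hp.prime.dvd_finsetProd_iff] at h3
    obtain ⟨i, hi, hdi⟩ := h3
    rw [Finset.mem_range] at hi
    have h4 : p ∣ 3 * (d + 2) + p := Dvd.dvd.add (hdvd.mul_left _) dvd_rfl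
    have h5 : p ∣ (3 * (d + 2) + p) - (3 * d + 4 + p - i) := Nat.dvd_sub h4 hdi
    have h6 : (3 * (d + 2) + p) - (3 * d + 4 + p - i) = i + 2 := by omega
    rw [h6] at h5
    have := Nat.le_of_dvd (by omega) h5
    omega
  -- not 9
  have h9 : ¬ 9 ∣ d + 2 := by
    rintro ⟨m, hm⟩
    have hm1 : 1 ≤ m := by omega
    have h1 := h 9 (by omega) (by omega)
    have h2 : (3 * d + 4 + 9) = 27 * m + 7 := by omega
    rw [h2] at h1
    have h3 : (9 : ℕ).choose (9 - 3) = 84 := by decide
    rw [h3] at h1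
    have h5 : 27 ∣ (27 * m + 7).descFactorial 6 := by
      rw [Nat.descFactorial_eq_factorial_mul_choose]
      obtain ⟨c, hc⟩ := h1
      rw [show 9 - 3 = 6 from rfl] at hc
      rw [hc]
      have : Nat.factorial 6 = 720 := rfl
      rw [this]
      exact ⟨2240 * c, by ring⟩
    have h6 : (27 * m + 7).descFactorial 6 =
        (27 * m + 2) * ((27 * m + 3) * ((27 * m + 4) * ((27 * m + 5) * ((27 * m + 6) *
          (27 * m + 7))))) := by
      simp only [Nat.descFactorial, Nat.sub_zero, mul_one]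
      rw [show 27 * m + 7 - 5 = 27 * m + 2 by omega, show 27 * m + 7 - 4 = 27 * m + 3 by omega,
        show 27 * m + 7 - 3 = 27 * m + 4 by omega, show 27 * m + 7 - 2 = 27 * m + 5 by omega,
        show 27 * m + 7 - 1 = 27 * m + 6 by omega]
    rw [h6] at h5
    have h7 := Nat.mod_eq_zero_of_dvd h5
    simp [Nat.mul_mod, Nat.add_mod] at h7
  obtain ⟨q, hq⟩ : ∃ q, d + 2 = 2 * q := ⟨(d + 2) / 2, by omega⟩
  have hqodd : q % 2 = 1 := by omega
  have hq1 : 1 < q := by omega
  have hpr : ∀ r, 1 < r → r ∣ q → 3 ∣ r := by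
    intro r hr hrq
    have hm := Nat.minFac_prime (show r ≠ 1 by omega)
    have hmd := Nat.minFac_dvd r
    have hmq : r.minFac ∣ d + 2 := by rw [hq]; exact (hmd.trans hrq).mul_left _
    have h1 : ¬ 5 ≤ r.minFac := fun h => hp _ hm h hmq
    have h2 := hm.two_le
    have h3 : r.minFac ≠ 2 := by
      intro h
      rw [h] at hmd
      have := hmd.trans hrq
      omega
    have h4 : r.minFac ≠ 4 := by
      intro h; rw [h] at hm; revert hm; decide
    have h5 : r.minFac = 3 := by omega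
    rw [h5] at hmd
    exact hmd
  obtain ⟨r, hr⟩ := hpr q hq1 dvd_rfl
  have hr1 : ¬ 1 < r := by
    intro h1
    obtain ⟨m, hm⟩ := hpr r h1 ⟨3, by omega⟩
    exact h9 ⟨2 * m, by omega⟩
  omega

end Pool.Agent.BW
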