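import Mathlib
import Pool.Agent.BW.Cls
import Pool.Agent.BW.Hole
import Pool.Agent.BW.Ste
import Pool.Agent.BetaL.Spec
import Pool.Agent.BetaL.Noda

/-!
# A `β(2)` design with `k = d + 4`, `d > 0` is an `S(5, 8, 24)`
-/

namespace Pool.Agent.BW

open Finset Pool.Agent.MP_1e96f1_co Pool.Agent.BetaL

variable {Ω : Type*} [Fintype Ω] [DecidableEq Ω]

/-- the integral zero -/
lemma zero24 {Bs : Finset (Finset Ω)} {v d : ℕ} (hD : IsDesign Bs v (d + 4) d)
    (hB : IsBeta Bs v d 2) :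
    2 * d + 8 ≤ v ∧ v ≤ 4 * d + 8 ∧
      ∃ t : ℕ, 1 ≤ t ∧ t * (v - 2 * d - 5 + t) = 2 * (d + 2) := by
  have hlow := noda_lower (n := 1) hD hB (by omega)
  have hup := noda_upper (n := 1) hD hB (by omega) (by
    have := (design_facts hD).2
    omega)
  have e1 : d + 4 - d = 4 := by omega
  rw [e1] at hlow hup
  refine ⟨by omega, by omega, ?_⟩
  obtain ⟨t, -, ht1, ht2, -⟩ := int_zeros (n := 1) hD hB le_rfl (by omega)
    (x := ((d + 3 : ℕ) : ℝ)) (a := ((d + 4 : ℕ) : ℝ) - ((d + 3 : ℕ) : ℝ))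
    (L := (v : ℝ) - 2 * ((d + 3 : ℕ) : ℝ) + 1) (by push_cast; ring) rfl rfl (by
      have : ((2 * d + 8 : ℕ) : ℝ) ≤ v := by exact_mod_cast (by omega : 2 * d + 8 ≤ v)
      push_cast at this ⊢
      linarith)
  refine ⟨t 0, ht1 0, ?_⟩
  simp only [Fin.sum_univ_one] at ht2
  obtain ⟨q, hq⟩ : ∃ q, v = 2 * d + 5 + q := ⟨v - (2 * d + 5), by omega⟩
  have e2 : v - 2 * d - 5 = q := by omega
  rw [e2]
  subst hq
  push_cast at ht2
  have : ((t 0 : ℝ)) * (q + t 0) = 2 * (d + 2) := by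
    norm_num at ht2
    linear_combination ht2
  exact_mod_cast this

/-- if all `(d+1)`-sets are covered the design is a `β(1)` design -/
lemma beta_one_of_cover {Bs : Finset (Finset Ω)} {v k d : ℕ} (hD : IsDesign Bs v k d)
    (hv : d + 1 ≤ v) (h : ∀ P : Finset Ω, P.card = d + 1 → ∃ C ∈ Bs, P ⊆ C) :
    IsBeta Bs v d 1 := by
  refine ⟨le_rfl, by omega, fun X hX => ?_⟩
  obtain ⟨B, hBs, hXB⟩ := h X (by omega)
  refine ⟨B, ⟨hBs, by rw [Finset.inter_eq_left.mpr hXB]; omega⟩, ?_⟩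
  rintro C ⟨hC, hXC⟩
  by_contra hne
  have h1 := hD.inter_le C hC B hBs hne
  have h2 : X ⊆ C := by
    rw [← Finset.inter_eq_left]
    exact Finset.eq_of_subset_of_card_le Finset.inter_subset_left (by omega)
  have h3 := Finset.card_le_card (Finset.subset_inter h2 hXB)
  omega

/-- **The case `(i, k - d) = (2, 4)`.** -/
theorem two_four {Bs : Finset (Finset Ω)} {v k d : ℕ} (hD : IsDesign Bs v k d) (hd : 0 < d)
    (hB : IsBeta Bs v d 2) (hk : k = d + 4) :
    v = 24 ∧ k = 8 ∧ d = 4 ∧ IsBeta Bs v d 1 := by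
  subst hk
  obtain ⟨hv1, hv2, t, ht1, ht⟩ := zero24 hD hB
  obtain ⟨w, hw⟩ : ∃ w, v = d + 4 + w := ⟨v - (d + 4), by omega⟩
  have hB1 : v = 4 * d + 8 := by
    by_contra hne
    -- the zero is at least two
    have ht2 : 2 ≤ t := by
      by_contra h
      have : t = 1 := by omega
      rw [this] at ht
      omega
    have hvb : v - 2 * d - 5 + t ≤ d + 2 := by
      have : 2 * (v - 2 * d - 5 + t) ≤ t * (v - 2 * d - 5 + t) := Nat.mul_le_mul_right _ ht2
      omega
    -- some `(d+1)`-set lies in no block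
    obtain ⟨P, hP, hno⟩ : ∃ P : Finset Ω, P.card = d + 1 ∧ ∀ C ∈ Bs, ¬ P ⊆ C := by
      by_contra hcon
      push Not at hcon
      have h1 := beta_one_of_cover hD (by omega) hcon
      have h2 := eq_of_beta_pred (n := 1) hD hB h1 (by omega) (by omega)
      have e1 : d + 4 - d = 4 := by omega
      rw [e1] at h2
      omega
    have h1 := twelve_block hD hB hw
    have h2 := twelve_hole hD hB hw hP hno
    have h3 : w % 4 = 1 := by
      have h4 : 4 ∣ w * (w - 1) := (by norm_num : 4 ∣ 12).trans h1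
      have h5 : 4 ∣ (w + 3) * (w + 2) := (by norm_num : 4 ∣ 12).trans h2
      obtain ⟨q, r, hr, rfl⟩ : ∃ q r, r < 4 ∧ w = 4 * q + r :=
        ⟨w / 4, w % 4, Nat.mod_lt _ (by norm_num), by omega⟩
      have h6 := Nat.mod_eq_zero_of_dvd h4
      have h7 := Nat.mod_eq_zero_of_dvd h5
      interval_cases r
      · exfalso
        simp [Nat.mul_mod, Nat.add_mod] at h7
      · omega
      · exfalso
        rw [show 4 * q + 2 - 1 = 4 * q + 1 by omega] at h6
        simp [Nat.mul_mod, Nat.add_mod] at h6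
      · exfalso
        rw [show 4 * q + 3 - 1 = 4 * q + 2 by omega] at h6
        simp [Nat.mul_mod, Nat.add_mod] at h6
    obtain ⟨q, hq⟩ : ∃ q, w + 1 = 2 * q := ⟨(w + 1) / 2, by omega⟩
    have hq1 : q ≠ 1 := by omega
    have hm := Nat.minFac_prime hq1
    have hmd := Nat.minFac_dvd q
    have hmle := Nat.minFac_le (show 0 < q by omega)
    refine no_prime hD hB hw (by omega) hm ?_ (by omega) (by rw [hq]; exact hmd.mul_left 2)
    intro h
    rw [h] at hmd
    omega
  have hβ : IsBeta Bs v d 1 := beta_pred_of_eq (n := 1) hD hB le_rfl (by omega) (by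
    have e1 : d + 4 - d = 4 := by omega
    rw [e1]; omega)
  have hd4 : d = 4 := by
    refine d_eq_four hd fun a ha ha' => ?_
    have h := lam_dvd hD hβ (s := d + 4 - a) (by omega)
    have e1 : d + 4 - (d + 4 - a) = a := by omega
    have e2 : d + 1 - (d + 4 - a) = a - 3 := by omega
    have e3 : v - (d + 4 - a) = 3 * d + 4 + a := by omega
    rw [e1, e2, e3] at h
    exact h
  refine ⟨by omega, by omega, hd4, hβ⟩

/-- **The case `(i, k - d) = (3, 4)`.** -/
theorem three_four {Bs : Finset (Finset Ω)} {v k d : ℕ} (hD : IsDesign Bs v k d) (hd : 0 < d)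
    (hB : IsBeta Bs v d 3) (hk : k = d + 4) :
    v = 24 ∧ k = 16 ∧ d = 12 ∧ IsBeta (co Bs) v 4 1 := by
  obtain ⟨hdk, hkv⟩ := design_facts hD
  have hlow := noda_lower (n := 2) hD hB (by omega)
  have e0 : k - d = 4 := by omega
  rw [e0] at hlow
  have hD' := design_co hD
  have hB' := beta_co hD (by omega) hB
  rw [show k - d - 3 + 1 = 2 by omega] at hB'
  have hpos : 0 < v + d - 2 * k := by omega
  obtain ⟨h1, h2, h3, h4⟩ := two_four hD' hpos hB' (by omega)
  rw [h3] at h4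
  exact ⟨h1, by omega, by omega, h4⟩

end Pool.Agent.BW
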