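import Mathlib
import Pool.Agent.BW.Fin
import Pool.Agent.BZ.Fin

/-!
# `β(i)` designs: `S(5, 8, 24)`, its complement, or `(i, k - d) = (2, 3)`
-/

namespace Pool.Agent.BW

open Finset Pool.Agent.MP_1e96f1_co

variable {Ω : Type*} [Fintype Ω] [DecidableEq Ω]

omit [Fintype Ω] in
lemma steiner_of_beta {Bs : Finset (Finset Ω)} {v : ℕ} (h : IsBeta Bs v 4 1) (X : Finset Ω)
    (hX : X.card = 5) : ∃! B, B ∈ Bs ∧ X ⊆ B := by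
  have hiff : ∀ C : Finset Ω, X ⊆ C ↔ 4 + 1 ≤ (X ∩ C).card := by
    intro C
    constructor
    · intro h; rw [Finset.inter_eq_left.mpr h, hX]
    · intro h
      rw [← Finset.inter_eq_left]
      exact Finset.eq_of_subset_of_card_le Finset.inter_subset_left (by omega)
  obtain ⟨B, ⟨hB, hXB⟩, hu⟩ := h.2.2 X (by omega)
  exact ⟨B, ⟨hB, (hiff B).mpr hXB⟩, fun C hC => hu C ⟨hC.1, (hiff C).mp hC.2⟩⟩

theorem main {Bs : Finset (Finset Ω)} {v k d i : ℕ} (hD : IsDesign Bs v k d) (hd : 0 < d)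
    (hB : IsBeta Bs v d i) (hi : 1 < i) (hi' : i < k - d) :
    (i = 2 ∧ k - d = 3) ∨
    (i = 2 ∧ v = 24 ∧ k = 8 ∧ d = 4 ∧
      ∀ X : Finset Ω, X.card = 5 → ∃! B, B ∈ Bs ∧ X ⊆ B) ∨
    (i = 3 ∧ v = 24 ∧ k = 16 ∧ d = 12 ∧
      ∀ X : Finset Ω, X.card = 5 → ∃! B, B ∈ Bs ∧ X ⊆ Bᶜ) := by
  rcases Pool.Agent.BZ.main hD hd hB hi hi' with ⟨rfl, h | h⟩ | ⟨rfl, h⟩
  · exact Or.inl ⟨rfl, h⟩
  · obtain ⟨h1, h2, h3, h4⟩ := two_four hD hd hB (by omega)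
    rw [h3] at h4
    exact Or.inr (Or.inl ⟨rfl, h1, h2, h3, fun X hX => steiner_of_beta h4 X hX⟩)
  · obtain ⟨h1, h2, h3, h4⟩ := three_four hD hd hB (by omega)
    refine Or.inr (Or.inr ⟨rfl, h1, h2, h3, fun X hX => ?_⟩)
    obtain ⟨B, ⟨hB1, hB2⟩, hu⟩ := steiner_of_beta h4 X hX
    refine ⟨Bᶜ, ⟨mem_co.mp hB1, by rwa [compl_compl]⟩, ?_⟩
    rintro C ⟨hC, hXC⟩
    have h5 := hu Cᶜ ⟨by rw [mem_co, compl_compl]; exact hC, hXC⟩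
    rw [← h5, compl_compl]

end Pool.Agent.BW
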