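import Mathlib
import Pool.Agent.BW.Main
import Pool.Agent.CZ.Final
import Pool.Agent.CZ.RA
import Pool.Agent.W24.G
import Pool.Agent.MP_1e96f1_co.Octad

/-!
# All `β(i)` designs with intermediate index

`BW.main` (everything but the case `(i, k - d) = (2, 3)`), `CZ.two_three_of` with the root tables
(the case `(2, 3)`) and `W24.witt_unique` (uniqueness of `S(5, 8, 24)`) are put together.
-/

namespace Pool.Agent.BW

open Finset Pool.Agent.MP_1e96f1_co Pool.Agent.W24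

universe u w

variable {Ω : Type u} [Fintype Ω] [DecidableEq Ω] {Ω' : Type w} [Fintype Ω'] [DecidableEq Ω']

/-- The case `(2, 3)` does not occur. -/
theorem two_three {Bs : Finset (Finset Ω)} {v k d : ℕ} (hD : IsDesign Bs v k d) (hd : 0 < d)
    (hB : IsBeta Bs v d 2) (hk : k = d + 3) : False :=
  Pool.Agent.CZ.two_three_of Pool.Agent.CZ.root_one Pool.Agent.CZ.root_two hD hd hB hk

lemma image_compl_equiv (e : Ω ≃ Ω') (B : Finset Ω) : (Bᶜ).image e = (B.image e)ᶜ := by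
  ext x
  simp only [mem_image, mem_compl]
  constructor
  · rintro ⟨y, hy, rfl⟩ ⟨z, hz, hzy⟩
    exact hy (e.injective hzy ▸ hz)
  · intro hx
    exact ⟨e.symm x, fun hmem => hx ⟨_, hmem, by simp⟩, by simp⟩

theorem beta_designs {Bs : Finset (Finset Ω)} {v k d i : ℕ} (hD : IsDesign Bs v k d) (hd : 0 < d)
    (hB : IsBeta Bs v d i) (hi : 1 < i) (hi' : i < k - d) {S : Finset (Finset Ω')} (hS : IsS5824 S) :
    (i = 2 ∧ v = 24 ∧ k = 8 ∧ d = 4 ∧ ∃ e : Ω ≃ Ω', S = Bs.image (fun B => B.image e)) ∨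
    (i = 3 ∧ v = 24 ∧ k = 16 ∧ d = 12 ∧ ∃ e : Ω ≃ Ω', S = Bs.image (fun B => (B.image e)ᶜ)) := by
  have hS' : W24 S := ⟨hS.card_points, hS.card_block, hS.cover⟩
  have hD' := hD
  obtain ⟨hv, -, hk, -⟩ := hD'
  rcases main hD hd hB hi hi' with ⟨rfl, h⟩ | ⟨rfl, rfl, rfl, rfl, h⟩ | ⟨rfl, rfl, rfl, rfl, h⟩
  · exact (two_three hD hd hB (by omega)).elim
  · exact Or.inl ⟨rfl, rfl, rfl, rfl, witt_unique ⟨hv, hk, h⟩ hS'⟩
  · have hW : W24 (co Bs) := by
      refine ⟨hv, ?_, ?_⟩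
      · intro B hB
        have h1 := hk _ (mem_co.mp hB)
        have h2 := card_compl B
        rw [hv] at h2
        have h3 := card_le_univ B
        rw [hv] at h3
        omega
      · intro X hX
        obtain ⟨B, ⟨hB1, hB2⟩, hu⟩ := h X hX
        refine ⟨Bᶜ, ⟨mem_co.mpr (by rwa [compl_compl]), hB2⟩, ?_⟩
        rintro C ⟨hC, hXC⟩
        have h5 := hu Cᶜ ⟨mem_co.mp hC, by rwa [compl_compl]⟩
        rw [← h5, compl_compl]
    obtain ⟨e, he⟩ := witt_unique hW hS'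
    refine Or.inr ⟨rfl, rfl, rfl, rfl, e, ?_⟩
    rw [he]
    ext C
    simp only [mem_image]
    constructor
    · rintro ⟨B, hB, rfl⟩
      refine ⟨Bᶜ, mem_co.mp hB, ?_⟩
      rw [image_compl_equiv, compl_compl]
    · rintro ⟨B, hB, rfl⟩
      refine ⟨Bᶜ, mem_co.mpr (by rwa [compl_compl]), ?_⟩
      rw [image_compl_equiv]

/-- The Steiner system `S(5, 8, 24)` exists. -/
theorem exists_S5824 : ∃ S : Finset (Finset (Fin 24)), IsS5824 S :=
  ⟨std, ⟨w24_std.card_pts, w24_std.card_block, w24_std.cover⟩⟩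

end Pool.Agent.BW
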